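import Pool.Agent.V5helper57.WZ.Stm

/-!
Job ALT of project WZ.
-/

set_option autoImplicit false

open Matrix

namespace Pool.Agent.V5helper92.WZ

theorem cyc {K : Type} [Field K] (X Y Z : Matrix (Fin 2) (Fin 2) K) :
    (X * Y * Z).trace = (Y * Z * X).trace := by
  rw [Matrix.mul_assoc, Matrix.trace_mul_comm]

/-- one relation times another matrix -/
theorem rel {K : Type} [Field K] (X Y Z S : Matrix (Fin 2) (Fin 2) K) (hX : X * X = 0) (hY : Y * Y = 0) (a b c u : K)
    (hS : S = a • X + b • Y + c • Z) (h : S * X - X * S = u • X) :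
    c * ((Z * X * Y).trace - (X * Z * Y).trace) = u * (X * Y).trace := by
  subst hS
  have h1 := congrArg (fun M => (M * Y).trace) h
  simp only [Matrix.add_mul, Matrix.mul_add, Matrix.sub_mul, Matrix.smul_mul, Matrix.mul_smul, hX, smul_zero,
    zero_add, Matrix.trace_add, Matrix.trace_sub, Matrix.trace_smul, smul_eq_mul] at h1
  have e1 : (Y * X * Y).trace = 0 := by
    rw [cyc, Matrix.mul_assoc, hY, Matrix.mul_zero, Matrix.trace_zero]
  have e2 : (X * Y * Y).trace = 0 := by
    rw [Matrix.mul_assoc, hY, Matrix.mul_zero, Matrix.trace_zero]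
  rw [e1, e2] at h1
  linear_combination h1

theorem t_ALT : Pool.Agent.V5helper57.WZ.S_ALT := by
  intro K _ _ u A hu0 hu1 hA T hsq hrel
  have r0 := hrel 0
  have r1 := hrel 1
  have r2 := hrel 2
  rw [Fin.sum_univ_three] at r0 r1 r2
  have q0 := hsq 0
  have q1 := hsq 1
  have q2 := hsq 2
  -- the trilinear trace
  obtain ⟨τ, hτ⟩ : ∃ τ, τ = (T 0 * T 1 * T 2).trace - (T 1 * T 0 * T 2).trace := ⟨_, rfl⟩
  have c1 : (T 1 * T 2 * T 0).trace = (T 0 * T 1 * T 2).trace := (cyc _ _ _).symm
  have c2 : (T 2 * T 0 * T 1).trace = (T 0 * T 1 * T 2).trace := cyc _ _ _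
  have c3 : (T 0 * T 2 * T 1).trace = (T 1 * T 0 * T 2).trace := (cyc _ _ _).symm
  have c4 : (T 2 * T 1 * T 0).trace = (T 1 * T 0 * T 2).trace := cyc _ _ _
  have s1 : (T 1 * T 0).trace = (T 0 * T 1).trace := Matrix.trace_mul_comm _ _
  have s2 : (T 2 * T 0).trace = (T 0 * T 2).trace := Matrix.trace_mul_comm _ _
  have s3 : (T 2 * T 1).trace = (T 1 * T 2).trace := Matrix.trace_mul_comm _ _
  have e01 : A 0 2 * τ = u 0 * (T 0 * T 1).trace := by
    have := rel (T 0) (T 1) (T 2) _ q0 q1 (A 0 0) (A 0 1) (A 0 2) (u 0) rfl r0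
    rw [c2, c3] at this
    rw [hτ]; linear_combination this
  have e02 : -(A 0 1 * τ) = u 0 * (T 0 * T 2).trace := by
    have := rel (T 0) (T 2) (T 1) _ q0 q2 (A 0 0) (A 0 2) (A 0 1) (u 0) (by abel) r0
    rw [hτ]; linear_combination this
  have e10 : -(A 1 2 * τ) = u 1 * (T 0 * T 1).trace := by
    have := rel (T 1) (T 0) (T 2) _ q1 q0 (A 1 1) (A 1 0) (A 1 2) (u 1) (by abel) r1
    rw [c4, c1, s1] at this
    rw [hτ]; linear_combination this
  have e12 : A 1 0 * τ = u 1 * (T 1 * T 2).trace := by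
    have := rel (T 1) (T 2) (T 0) _ q1 q2 (A 1 1) (A 1 2) (A 1 0) (u 1) (by abel) r1
    rw [hτ]; linear_combination this
  have e20 : A 2 1 * τ = u 2 * (T 0 * T 2).trace := by
    have := rel (T 2) (T 0) (T 1) _ q2 q0 (A 2 2) (A 2 0) (A 2 1) (u 2) (by abel) r2
    rw [c1, c4, s2] at this
    rw [hτ]; linear_combination this
  have e21 : -(A 2 0 * τ) = u 2 * (T 1 * T 2).trace := by
    have := rel (T 2) (T 1) (T 0) _ q2 q1 (A 2 2) (A 2 1) (A 2 0) (u 2) (by abel) r2
    rw [c3, c2, s3] at this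
    rw [hτ]; linear_combination this
  have τ0 : τ = 0 := by
    rcases hA with h | h | h
    · have : (u 1 * A 0 2 + u 0 * A 1 2) * τ = 0 := by linear_combination u 1 * e01 - u 0 * e10
      exact (mul_eq_zero.1 this).resolve_left h
    · have : (u 2 * A 0 1 + u 0 * A 2 1) * τ = 0 := by linear_combination u 0 * e20 - u 2 * e02
      exact (mul_eq_zero.1 this).resolve_left h
    · have : (u 2 * A 1 0 + u 1 * A 2 0) * τ = 0 := by linear_combination u 2 * e12 - u 1 * e21
      exact (mul_eq_zero.1 this).resolve_left h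
  rw [τ0] at e01 e02 e12
  have t01 : (T 0 * T 1).trace = 0 := by
    have : u 0 * (T 0 * T 1).trace = 0 := by linear_combination -e01
    exact (mul_eq_zero.1 this).resolve_left hu0
  have t02 : (T 0 * T 2).trace = 0 := by
    have : u 0 * (T 0 * T 2).trace = 0 := by linear_combination -e02
    exact (mul_eq_zero.1 this).resolve_left hu0
  have t12 : (T 1 * T 2).trace = 0 := by
    have : u 1 * (T 1 * T 2).trace = 0 := by linear_combination -e12
    exact (mul_eq_zero.1 this).resolve_left hu1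
  intro i j
  fin_cases i <;> fin_cases j
  · show (T 0 * T 0).trace = 0
    rw [q0, Matrix.trace_zero]
  · exact t01
  · exact t02
  · exact s1.trans t01
  · show (T 1 * T 1).trace = 0
    rw [q1, Matrix.trace_zero]
  · exact t12
  · exact s2.trans t02
  · exact s3.trans t12
  · show (T 2 * T 2).trace = 0
    rw [q2, Matrix.trace_zero]

end Pool.Agent.V5helper92.WZ
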