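import Pool.Agent.V5helper57.WZ.Stm

/-!
Jobs KER and ALT of project WZ.
-/

set_option autoImplicit false

open Matrix

namespace Pool.Agent.V5helper92.WZ

/-- entries of a square zero `2 × 2` matrix -/
theorem entries {K : Type} [Field K] (M : Matrix (Fin 2) (Fin 2) K) (h : M * M = 0) :
    M 1 1 = - M 0 0 ∧ M 0 0 * M 0 0 + M 0 1 * M 1 0 = 0 := by
  have h00 : M 0 0 * M 0 0 + M 0 1 * M 1 0 = 0 := by
    have := congrFun (congrFun h 0) 0
    simpa [Matrix.mul_apply, Fin.sum_univ_two] using this
  have h01 : M 0 0 * M 0 1 + M 0 1 * M 1 1 = 0 := by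
    have := congrFun (congrFun h 0) 1
    simpa [Matrix.mul_apply, Fin.sum_univ_two] using this
  have h10 : M 1 0 * M 0 0 + M 1 1 * M 1 0 = 0 := by
    have := congrFun (congrFun h 1) 0
    simpa [Matrix.mul_apply, Fin.sum_univ_two] using this
  have h11 : M 1 0 * M 0 1 + M 1 1 * M 1 1 = 0 := by
    have := congrFun (congrFun h 1) 1
    simpa [Matrix.mul_apply, Fin.sum_univ_two] using this
  refine ⟨?_, h00⟩
  by_contra hne
  have hs : M 1 1 + M 0 0 ≠ 0 := fun h0 => hne (eq_neg_of_add_eq_zero_left h0)
  have b0 : M 0 1 = 0 := by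
    have : M 0 1 * (M 1 1 + M 0 0) = 0 := by linear_combination h01
    exact (mul_eq_zero.1 this).resolve_right hs
  rw [b0] at h00 h11
  have a0 : M 0 0 = 0 := by
    have : M 0 0 * M 0 0 = 0 := by linear_combination h00
    exact mul_self_eq_zero.1 this
  have d0 : M 1 1 = 0 := by
    have : M 1 1 * M 1 1 = 0 := by linear_combination h11
    exact mul_self_eq_zero.1 this
  exact hs (by rw [a0, d0, add_zero])

theorem trace_prod {K : Type} [Field K] (M N : Matrix (Fin 2) (Fin 2) K) :
    (M * N).trace = M 0 0 * N 0 0 + M 0 1 * N 1 0 + (M 1 0 * N 0 1 + M 1 1 * N 1 1) := by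
  simp [Matrix.trace, Matrix.mul_apply, Fin.sum_univ_two]

theorem t_KER : Pool.Agent.V5helper57.WZ.S_KER := by
  intro K _ _ n T hsq htr
  by_cases hall : ∀ i, T i = 0
  · refine ⟨![1, 0], ?_, fun i => by rw [hall i, Matrix.zero_mulVec]⟩
    intro h
    have := congrFun h 0
    simp at this
  · push Not at hall
    obtain ⟨k, hk⟩ := hall
    obtain ⟨k11, k00⟩ := entries (T k) (hsq k)
    by_cases hb : T k 0 1 = 0
    · -- `b = 0`
      have ha : T k 0 0 = 0 := by
        rw [hb] at k00
        exact mul_self_eq_zero.1 (by linear_combination k00)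
      have hc : T k 1 0 ≠ 0 := by
        intro hc
        apply hk
        ext i j
        fin_cases i <;> fin_cases j
        · exact ha
        · exact hb
        · exact hc
        · show T k 1 1 = 0
          rw [k11, ha, neg_zero]
      refine ⟨![0, 1], ?_, fun i => ?_⟩
      · intro h
        have := congrFun h 1
        simp at this
      · obtain ⟨i11, i00⟩ := entries (T i) (hsq i)
        have ht := htr k i
        rw [trace_prod, ha, hb, k11, ha] at ht
        have he : T i 0 1 = 0 := by
          have : T k 1 0 * T i 0 1 = 0 := by linear_combination ht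
          exact (mul_eq_zero.1 this).resolve_left hc
        have hd : T i 0 0 = 0 := by
          rw [he] at i00
          exact mul_self_eq_zero.1 (by linear_combination i00)
        have hd1 : T i 1 1 = 0 := by rw [i11, hd, neg_zero]
        ext j
        fin_cases j
        · simp [Matrix.mulVec, dotProduct, Fin.sum_univ_two, he]
        · simp [Matrix.mulVec, dotProduct, Fin.sum_univ_two, hd1]
    · refine ⟨![T k 0 1, - T k 0 0], ?_, fun i => ?_⟩
      · intro h
        have := congrFun h 0
        simp at this
        exact hb this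
      · obtain ⟨i11, i00⟩ := entries (T i) (hsq i)
        have ht := htr k i
        rw [trace_prod, k11, i11] at ht
        have h1 : T i 0 0 * T k 0 1 - T i 0 1 * T k 0 0 = 0 := by
          apply pow_eq_zero_iff (two_ne_zero) |>.1
          linear_combination (T k 0 1) ^ 2 * i00 + (T i 0 1) ^ 2 * k00 - T k 0 1 * T i 0 1 * ht
        have h2 : T i 1 0 * T k 0 1 + T i 0 0 * T k 0 0 = 0 := by
          have : T k 0 1 * (T i 1 0 * T k 0 1 + T i 0 0 * T k 0 0) = 0 := by
            linear_combination T k 0 1 * ht - T i 0 1 * k00 - T k 0 0 * h1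
          exact (mul_eq_zero.1 this).resolve_left hb
        ext j
        fin_cases j
        · simp [Matrix.mulVec, dotProduct, Fin.sum_univ_two]
          linear_combination h1
        · simp [Matrix.mulVec, dotProduct, Fin.sum_univ_two, i11]
          linear_combination h2

end Pool.Agent.V5helper92.WZ
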